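import Pool.Agent.Helper73.OB.GoalsA

/-!
Project OB (MP_fc0446_an), packet E3MP: the map from model 3 to the label model is measure preserving.
-/

open MeasureTheory ProbabilityTheory
open scoped ENNReal

namespace Pool.Agent.Helper60.OB

open Pool.Agent.Helper73.OB

section Split

variable {ι A B : Type} [MeasurableSpace A] [MeasurableSpace B]

/-- The family of all measurable boxes over finite sets. -/
private def cyl (ι A : Type) [MeasurableSpace A] : Set (Set (ι → A)) :=
  squareCylinders fun _ : ι => {s : Set A | MeasurableSet s}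

private theorem univ_mem_cyl : (Set.univ : Set (ι → A)) ∈ cyl ι A :=
  ⟨∅, fun _ => Set.univ, fun _ _ => MeasurableSet.univ, by simp⟩

private noncomputable def spanCyl (μ : Measure (ι → A)) [IsFiniteMeasure μ] :
    μ.FiniteSpanningSetsIn (cyl ι A) where
  set _ := Set.univ
  set_mem _ := univ_mem_cyl
  finite _ := measure_lt_top _ _
  spanning := Set.iUnion_const _

theorem split_map (α : Measure A) (ν : Measure B) [IsProbabilityMeasure α]
    [IsProbabilityMeasure ν] :
    (Measure.infinitePi fun _ : ι => α.prod ν).map
        (fun ω : ι → A × B => ((fun i => (ω i).1 : ι → A), (fun i => (ω i).2 : ι → B))) =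
      (Measure.infinitePi fun _ : ι => α).prod (Measure.infinitePi fun _ : ι => ν) := by
  classical
  symm
  refine Measure.prod_eq_generateFrom (C := cyl ι A) (D := cyl ι B)
    generateFrom_squareCylinders generateFrom_squareCylinders
    (isPiSystem_squareCylinders (fun _ => MeasurableSpace.isPiSystem_measurableSet)
      (fun _ => MeasurableSet.univ))
    (isPiSystem_squareCylinders (fun _ => MeasurableSpace.isPiSystem_measurableSet)
      (fun _ => MeasurableSet.univ)) (spanCyl _) (spanCyl _) ?_
  rintro _ ⟨F, s, hs, rfl⟩ _ ⟨G, t, ht, rfl⟩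
  have hs' : ∀ i, MeasurableSet (s i) := fun i => hs i trivial
  have ht' : ∀ i, MeasurableSet (t i) := fun i => ht i trivial
  have hmeas : Measurable
      (fun ω : ι → A × B => ((fun i => (ω i).1 : ι → A), (fun i => (ω i).2 : ι → B))) := by
    fun_prop
  rw [Measure.map_apply hmeas ((MeasurableSet.pi F.countable_toSet fun i _ => hs' i).prod
    (MeasurableSet.pi G.countable_toSet fun i _ => ht' i))]
  have hset : (fun ω : ι → A × B => ((fun i => (ω i).1 : ι → A), (fun i => (ω i).2 : ι → B))) ⁻¹'
      ((F : Set ι).pi s ×ˢ (G : Set ι).pi t) =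
      ((F ∪ G : Finset ι) : Set ι).pi
        (fun i => (if i ∈ F then s i else Set.univ) ×ˢ (if i ∈ G then t i else Set.univ)) := by
    ext ω
    simp only [Set.mem_preimage, Set.mem_prod, Set.mem_pi, Finset.mem_coe, Finset.mem_union]
    constructor
    · rintro ⟨h1, h2⟩ i _
      constructor
      · split_ifs with hi
        · exact h1 i hi
        · trivial
      · split_ifs with hi
        · exact h2 i hi
        · trivial
    · intro h
      constructor
      · intro i hi
        have := (h i (Or.inl hi)).1
        rwa [if_pos hi] at this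
      · intro i hi
        have := (h i (Or.inr hi)).2
        rwa [if_pos hi] at this
  rw [hset, Measure.infinitePi_pi _ (fun i _ => ?_), Measure.infinitePi_pi _ (fun i _ => hs' i),
    Measure.infinitePi_pi _ (fun i _ => ht' i)]
  · simp only [Measure.prod_prod]
    rw [Finset.prod_mul_distrib]
    congr 1
    · rw [← Finset.prod_subset (Finset.subset_union_left (s₁ := F) (s₂ := G))]
      · exact Finset.prod_congr rfl fun i hi => by rw [if_pos hi]
      · intro i _ hi
        rw [if_neg hi, measure_univ]
    · rw [← Finset.prod_subset (Finset.subset_union_right (s₁ := F) (s₂ := G))]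
      · exact Finset.prod_congr rfl fun i hi => by rw [if_pos hi]
      · intro i _ hi
        rw [if_neg hi, measure_univ]
  · refine MeasurableSet.prod ?_ ?_
    · split_ifs
      · exact hs' i
      · exact MeasurableSet.univ
    · split_ifs
      · exact ht' i
      · exact MeasurableSet.univ

theorem split_mp (α : Measure A) (ν : Measure B) [IsProbabilityMeasure α]
    [IsProbabilityMeasure ν] :
    MeasurePreserving
      (fun ω : ι → A × B => ((fun i => (ω i).1 : ι → A), (fun i => (ω i).2 : ι → B)))
      (Measure.infinitePi fun _ : ι => α.prod ν)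
      ((Measure.infinitePi fun _ : ι => α).prod (Measure.infinitePi fun _ : ι => ν)) :=
  ⟨by fun_prop, split_map α ν⟩

theorem join_mp (α : Measure A) (ν : Measure B) [IsProbabilityMeasure α]
    [IsProbabilityMeasure ν] :
    MeasurePreserving
      (fun x : (ι → A) × (ι → B) => (fun i => (x.1 i, x.2 i) : ι → A × B))
      ((Measure.infinitePi fun _ : ι => α).prod (Measure.infinitePi fun _ : ι => ν))
      (Measure.infinitePi fun _ : ι => α.prod ν) := by
  refine ⟨by fun_prop, ?_⟩
  rw [← split_map α ν, Measure.map_map (by fun_prop) (by fun_prop)]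
  exact Measure.map_id

theorem comp_mp {ι : Type} (α : Measure A) (ν : Measure B) [IsProbabilityMeasure α]
    [IsProbabilityMeasure ν] {g : A → B} (hg : MeasurePreserving g α ν) :
    MeasurePreserving (fun (ω : ι → A) i => g (ω i)) (Measure.infinitePi fun _ : ι => α)
      (Measure.infinitePi fun _ : ι => ν) := by
  have hm := hg.measurable
  refine ⟨by fun_prop, ?_⟩
  rw [Measure.infinitePi_map_pi _ (fun _ => hg.measurable)]
  simp only [hg.map_eq]

end Split

section Assoc

variable {A B C D : Type} [MeasurableSpace A] [MeasurableSpace B] [MeasurableSpace C]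
  [MeasurableSpace D]

theorem assoc_mp (a : Measure A) (b : Measure B) (c : Measure C) (d : Measure D)
    [IsProbabilityMeasure a] [IsProbabilityMeasure b] [IsProbabilityMeasure c]
    [IsProbabilityMeasure d] :
    MeasurePreserving (fun x : (A × B × C) × D => (x.1.1, x.1.2.1, x.1.2.2, x.2))
      ((a.prod (b.prod c)).prod d) (a.prod (b.prod (c.prod d))) := by
  have h1 : MeasurePreserving (MeasurableEquiv.prodAssoc : (A × (B × C)) × D ≃ᵐ A × ((B × C) × D))
      ((a.prod (b.prod c)).prod d) (a.prod ((b.prod c).prod d)) := measurePreserving_prodAssoc a _ d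
  have h2 : MeasurePreserving (MeasurableEquiv.prodAssoc : (B × C) × D ≃ᵐ B × (C × D))
      ((b.prod c).prod d) (b.prod (c.prod d)) := measurePreserving_prodAssoc b c d
  have h3 := (MeasurePreserving.id a).prod h2
  exact h3.comp h1

theorem assoc_mp' (a : Measure A) (b : Measure B) (c : Measure C) (d : Measure D)
    [IsProbabilityMeasure a] [IsProbabilityMeasure b] [IsProbabilityMeasure c]
    [IsProbabilityMeasure d] :
    MeasurePreserving (fun x : A × B × C × D => ((x.1, x.2.1, x.2.2.1), x.2.2.2))
      (a.prod (b.prod (c.prod d))) ((a.prod (b.prod c)).prod d) := by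
  refine ⟨by fun_prop, ?_⟩
  rw [← (assoc_mp a b c d).map_eq, Measure.map_map (by fun_prop) (by fun_prop)]
  exact Measure.map_id

end Assoc

section Pair

/-- One coordinate: the slots in `c` are packed. -/
theorem pair_mp (hP : S_PACK) (hF : IsProbabilityMeasure fair) (c : Bit → Prop)
    [DecidablePred c] :
    (uni2.prod fair2).map (fun x : (Bit → unitInterval) × (Bit → Bit) =>
      (fun z => if c z then pack (x.2 z) (x.1 z) else x.1 z : Bit → unitInterval)) = uni2 := by
  have hpm : Measurable (fun x : Bit × unitInterval => pack x.1 x.2) := hP.1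
  have hsw : Measurable (fun x : unitInterval × Bit => pack x.2 x.1) :=
    hpm.comp measurable_swap
  have hf : ∀ z, Measurable (fun x : unitInterval × Bit => if c z then pack x.2 x.1 else x.1) := by
    intro z
    by_cases h : c z
    · simp only [if_pos h]; exact hsw
    · simp only [if_neg h]; exact measurable_fst
  have e1 : uni2.prod fair2 =
      (Measure.infinitePi fun _ : Bit => uni).prod (Measure.infinitePi fun _ : Bit => fair) := by
    rw [Measure.infinitePi_eq_pi, Measure.infinitePi_eq_pi]
  have hmT : Measurable (fun x : (Bit → unitInterval) × (Bit → Bit) =>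
      (fun z => if c z then pack (x.2 z) (x.1 z) else x.1 z : Bit → unitInterval)) := by
    refine measurable_pi_iff.2 fun z => ?_
    have : (fun x : (Bit → unitInterval) × (Bit → Bit) =>
        if c z then pack (x.2 z) (x.1 z) else x.1 z) =
        (fun y : unitInterval × Bit => if c z then pack y.2 y.1 else y.1) ∘
          (fun x : (Bit → unitInterval) × (Bit → Bit) => (x.1 z, x.2 z)) := rfl
    rw [this]
    exact (hf z).comp (by fun_prop)
  rw [e1, ← split_map, Measure.map_map hmT (by fun_prop)]
  have e2 : ((fun x : (Bit → unitInterval) × (Bit → Bit) =>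
      (fun z => if c z then pack (x.2 z) (x.1 z) else x.1 z : Bit → unitInterval)) ∘
      (fun ω : Bit → unitInterval × Bit => ((fun i => (ω i).1 : Bit → unitInterval),
        (fun i => (ω i).2 : Bit → Bit)))) =
      fun (ω : Bit → unitInterval × Bit) z =>
        (fun x : unitInterval × Bit => if c z then pack x.2 x.1 else x.1) (ω z) := rfl
  rw [e2, Measure.infinitePi_map_pi (f := fun z (x : unitInterval × Bit) =>
    if c z then pack x.2 x.1 else x.1) _ hf]
  have e3 : ∀ z, (uni.prod fair).map
      (fun x : unitInterval × Bit => if c z then pack x.2 x.1 else x.1) = uni := by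
    intro z
    by_cases h : c z
    · simp only [if_pos h]
      have := hP.2.2.2
      rw [← Measure.prod_swap, Measure.map_map hpm measurable_swap] at this
      exact this
    · simp only [if_neg h]
      exact (measurePreserving_fst (μ := uni) (ν := fair)).map_eq
  simp only [e3]
  rw [Measure.infinitePi_eq_pi]

end Pair

section Main

variable {S : Type} {β : S → S}

/-- The labels `(M, e, V)`. -/
abbrev LA : Type := Bool × (Bit → Bit) × unitInterval

/-- The marker function of the reduced model. -/
private def MA (β : S → S) (a : RW β → LA) : Bool := (a (rootW β)).1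

/-- The real of the reduced model. -/
private def VA (β : S → S) (a : RW β → LA) : unitInterval := (a (rootW β)).2.2

/-- The reduction of the model. -/
private def pr (β : S → S) (ω : RW β → Lb3) : RW β → LA :=
  fun w => ((ω w).1, (ω w).2.1, (ω w).2.2.1)

private theorem pr_shift (s : S) (ω : RW β → Lb3) : pr β (shiftR β s ω) = shiftR β s (pr β ω) :=
  rfl

private theorem pr_run (w : List S) (ω : RW β → Lb3) :
    pr β (run (shiftR β) w ω) = run (shiftR β) w (pr β ω) :=
  run_equivariant pr_shift w ω

private theorem kfar_pr (p : Bit → S) (δ : Bit) (ω : RW β → Lb3) (z : Bit) :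
    kfar p δ (shiftR β) (fun y : RW β → Lb3 => (y (rootW β)).1) ω z =
      kfar p δ (shiftR β) (MA β) (pr β ω) z := by
  unfold kfar
  congr 1
  ext k
  have h := pr_run (β := β) (uw p δ k z) ω
  have h2 : MA β (run (shiftR β) (uw p δ k z) (pr β ω)) =
      (run (shiftR β) (uw p δ k z) ω (rootW β)).1 := by
    rw [← h]
    rfl
  simp only [Set.mem_ofPred_eq, h2]

private theorem pfar_pr (p : Bit → S) (δ : Bit) (ω : RW β → Lb3) (z : Bit) :
    pr β (pfar p δ (shiftR β) (fun y : RW β → Lb3 => (y (rootW β)).1) ω z) =
      pfar p δ (shiftR β) (MA β) (pr β ω) z := by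
  unfold pfar
  rw [pr_run, kfar_pr]

private theorem stores_pr (p : Bit → S) (δ : Bit) (ω : RW β → Lb3) (z : Bit) :
    Stores p δ (shiftR β) (fun y : RW β → Lb3 => (y (rootW β)).1)
        (fun y : RW β → Lb3 => (y (rootW β)).2.2.1) ω z ↔
      Stores p δ (shiftR β) (MA β) (VA β) (pr β ω) z := by
  unfold Stores
  rw [← pfar_pr]
  rfl

private theorem shiftR_meas {L : Type} [MeasurableSpace L] (s : S) :
    Measurable (shiftR (L := L) β s) :=
  measurable_pi_iff.2 fun _ => measurable_pi_apply _

private theorem run_meas {L : Type} [MeasurableSpace L] (w : List S) :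
    Measurable (run (shiftR (L := L) β) w) := by
  induction w with
  | nil => exact measurable_id
  | cons a w ih => exact ih.comp (shiftR_meas a)

open Classical in
/-- The map of the coordinates `(r, o)`. -/
private noncomputable def TT (β : S → S) (p : Bit → S) (δ : Bit) (a : RW β → LA) (w : RW β)
    (x : (Bit → unitInterval) × (Bit → Bit)) : Bit → unitInterval :=
  fun z => if Stores p δ (shiftR β) (MA β) (VA β) (run (shiftR β) w.1 a) z then
    pack (x.2 z) (x.1 z) else x.1 z

/-- E3MP. -/
theorem e3mp (hSK : S_SKEW) (hP : S_PACK) (hPR : S_PRB) (hM : S_MEAS) : S_E3MP := by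
  intro S _ β p δ _ e
  classical
  obtain ⟨hF, hR⟩ := hPR
  obtain ⟨hb, -, hl, hl3, -⟩ := hR e
  have _i1 := hF
  have _i2 := hb
  have _i3 := hl
  have _i4 := hl3
  have hMA : Measurable (MA β) := (measurable_pi_apply (rootW β)).fst
  have hVA : Measurable (VA β) := (measurable_pi_apply (rootW β)).snd.snd
  have hpm : Measurable (fun x : Bit × unitInterval => pack x.1 x.2) := hP.1
  have hSt : ∀ z, MeasurableSet {a : RW β → LA | Stores p δ (shiftR β) (MA β) (VA β) a z} := by
    intro z
    have h1 := ((hM S (RW β → LA) p δ (shiftR β) (fun s => shiftR_meas s)).1 (MA β) (VA β)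
      (fun _ _ => 0) z hMA hVA measurable_const).2.1
    have h2 : MeasurableSet {a : RW β → LA | MA β a = true} := hMA (measurableSet_singleton true)
    exact h2.inter (measurableSet_lt (measurable_subtype_coe.comp (hVA.comp h1))
      (measurable_subtype_coe.comp hVA))
  have hTm : ∀ w : RW β, Measurable fun x : (RW β → LA) × ((Bit → unitInterval) × (Bit → Bit)) =>
      TT β p δ x.1 w x.2 := by
    intro w
    refine measurable_pi_iff.2 fun z => ?_
    refine Measurable.ite ?_ ?_ ?_
    · exact ((run_meas w.1).comp measurable_fst) (hSt z)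
    · exact hpm.comp (by fun_prop :
        Measurable fun x : (RW β → LA) × ((Bit → unitInterval) × (Bit → Bit)) =>
          (x.2.2 z, x.2.1 z))
    · fun_prop
  have hTmap : ∀ (a : RW β → LA) (w : RW β), (uni2.prod fair2).map (TT β p δ a w) = uni2 :=
    fun a w => pair_mp hP hF _
  have hsk := hSK (RW β) (RW β → LA) ((Bit → unitInterval) × (Bit → Bit)) (Bit → unitInterval)
    (iid β ((ber e).prod (fair2.prod uni))) (uni2.prod fair2) uni2 (TT β p δ) hTm hTmap
  have hJ1 := (split_mp (ι := RW β) ((ber e).prod (fair2.prod uni)) (uni2.prod fair2)).comp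
    (comp_mp (ι := RW β) (lawL3 e) (((ber e).prod (fair2.prod uni)).prod (uni2.prod fair2))
      (assoc_mp' (ber e) fair2 uni (uni2.prod fair2)))
  have hg : MeasurePreserving (fun x : LA × (Bit → unitInterval) =>
      ((x.1.1, (if x.1.1 = true then x.1.2.1 else 0), x.1.2.2, x.2) : Lb))
      (((ber e).prod (fair2.prod uni)).prod uni2) (lawL e) := by
    have hgm : Measurable (fun s : Bool × (Bit → Bit) × unitInterval × (Bit → unitInterval) =>
        ((s.1, (if s.1 = true then s.2.1 else 0), s.2.2.1, s.2.2.2) : Lb)) := by
      refine Measurable.prodMk measurable_fst (Measurable.prodMk ?_ (by fun_prop))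
      exact Measurable.ite (measurable_fst (measurableSet_singleton true)) (by fun_prop)
        measurable_const
    have h2 : MeasurePreserving (fun s : Bool × (Bit → Bit) × unitInterval × (Bit → unitInterval) =>
        ((s.1, (if s.1 = true then s.2.1 else 0), s.2.2.1, s.2.2.2) : Lb))
        ((ber e).prod (fair2.prod (uni.prod uni2))) (lawL e) := ⟨hgm, rfl⟩
    exact h2.comp (assoc_mp (ber e) fair2 uni uni2)
  have hJ2 := (comp_mp (ι := RW β) (((ber e).prod (fair2.prod uni)).prod uni2) (lawL e) hg).comp
    (join_mp (ι := RW β) ((ber e).prod (fair2.prod uni)) uni2)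
  have hall := hJ2.comp (hsk.comp hJ1)
  have hfun : field β (shiftR β) (E3 p δ (shiftR β) (fun ω : RW β → Lb3 => ω (rootW β))) =
      ((fun (ω : RW β → LA × (Bit → unitInterval)) i =>
          (((ω i).1.1, (if (ω i).1.1 = true then (ω i).1.2.1 else 0), (ω i).1.2.2, (ω i).2) : Lb)) ∘
        (fun x : (RW β → LA) × (RW β → (Bit → unitInterval)) =>
          (fun i => (x.1 i, x.2 i) : RW β → LA × (Bit → unitInterval)))) ∘
      ((fun x : (RW β → LA) × (RW β → (Bit → unitInterval) × (Bit → Bit)) =>
          (x.1, fun i => TT β p δ x.1 i (x.2 i))) ∘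
        ((fun ω : RW β → LA × ((Bit → unitInterval) × (Bit → Bit)) =>
          ((fun i => (ω i).1 : RW β → LA),
            (fun i => (ω i).2 : RW β → (Bit → unitInterval) × (Bit → Bit)))) ∘
        (fun (ω : RW β → Lb3) i =>
          (((ω i).1, (ω i).2.1, (ω i).2.2.1), (ω i).2.2.2)))) := by
    funext ω w
    have hroot : run (shiftR β) w.1 ω (rootW β) = ω w := run_shiftR_root w.2 ω
    simp only [field, E3, hroot, Function.comp_apply]
    refine Prod.ext rfl (Prod.ext rfl (Prod.ext rfl ?_))
    funext z
    simp only [TT]
    have hst := stores_pr p δ (run (shiftR β) w.1 ω) z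
    rw [pr_run] at hst
    by_cases h : Stores p δ (shiftR β) (MA β) (VA β) (run (shiftR β) w.1 (pr β ω)) z
    · rw [if_pos (hst.2 h)]
      exact (if_pos h).symm
    · rw [if_neg (fun h' => h (hst.1 h'))]
      exact (if_neg h).symm
  rw [hfun]
  exact hall

end Main

end Pool.Agent.Helper60.OB
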