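import Pool.Agent.Helper70.OB.GoalsE

/-!
Project EV (MP_91ee6f_gt): packet ESTR.
-/

open MeasureTheory Set Metric Filter
open scoped ENNReal Topology
open Pool.Agent.Results.MP_91ee6f_gt
open Pool.Agent.Helper70.MM (om om_zero om_one om_rel om_pos om_hasDerivAt om_le om_measurable)
open Pool.Agent.Helper70.MB (KT)
open Pool.Agent.Helper70.OB

namespace Pool.Agent.Helper60.OB

lemma om_nn (j : ℕ) {s : ℝ} (hs : 0 ≤ s) : 0 ≤ om j s := by
  rcases hs.eq_or_lt with h | h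
  · rw [← h]
    match j with
    | 0 =>
      rw [om_zero]
      exact (Real.exp_pos _).le
    | 1 =>
      rw [om_one, div_zero]
    | j + 2 =>
      rw [Pool.Agent.Helper70.MM.om_succ_succ]
      norm_num
  · exact (om_pos j h).le

lemma gj_nn {n : ℕ} (τ : Measure (En n)) (e : En n) (j : ℕ) (r : ℝ) : 0 ≤ gj τ e j r :=
  integral_nonneg fun _ => om_nn j dist_nonneg

lemma cc_succ (n j : ℕ) : cc n (j + 1) = cc n j * ((n : ℝ) - 1 - 2 * j) := by
  unfold cc
  rw [Finset.prod_range_succ]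

lemma cc_pos (k : ℕ) : 0 < cc (2 * k) k := by
  unfold cc
  apply Finset.prod_pos
  intro i hi
  rw [Finset.mem_range] at hi
  have h1 : (i : ℝ) + 1 ≤ k := by exact_mod_cast hi
  push_cast
  linarith

lemma shell_null {n : ℕ} (τ : Measure (En n)) (S : Set ℝ) (hs : τ.support = {x : En n | ‖x‖ ∈ S})
    (h0 : τ τ.supportᶜ = 0) {a b : ℝ} (h : ∀ r, a < r → r < b → r ∉ S) :
    τ {y | a < ‖y‖ ∧ ‖y‖ < b} = 0 := by
  refine measure_mono_null ?_ h0
  intro y hy hy2
  rw [hs] at hy2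
  exact h _ hy.1 hy.2 hy2

/-- the equations in a gap with the derivative as flux -/
lemma gap_eqs (hG : GAPO) {n : ℕ} (hn : 2 ≤ n) (τ : Measure (En n)) (hf : IsFiniteMeasure τ)
    (hrot : Rot τ) {e : En n} (he : ‖e‖ = 1) {a b : ℝ} (ha : 0 ≤ a) (hab : a < b)
    (h0 : τ {y | a < ‖y‖ ∧ ‖y‖ < b} = 0) (j : ℕ) {r : ℝ} (hr : r ∈ Ioo a b) :
    Integrable (fun y => om j (dist (r • e) y)) τ ∧
    HasDerivAt (gj τ e j) ((r ^ (n - 1) * deriv (gj τ e j) r) / r ^ (n - 1)) r ∧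
    HasDerivAt (fun r => r ^ (n - 1) * deriv (gj τ e j) r)
      (r ^ (n - 1) * (gj τ e j r - ((n : ℝ) - 1 - 2 * j) * gj τ e (j + 1) r)) r := by
  obtain ⟨hint, d, hd, -⟩ := hG n hn τ hf hrot e he a b ha hab h0 j
  have heq : ∀ t ∈ Ioo a b, t ^ (n - 1) * deriv (gj τ e j) t = d t := by
    intro t ht
    rw [(hd t ht).1.deriv]
    have ht0 : 0 < t := lt_of_le_of_lt ha ht.1
    exact mul_div_cancel₀ _ (pow_ne_zero _ ht0.ne')
  refine ⟨hint r hr, ?_, ?_⟩
  · rw [heq r hr]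
    exact (hd r hr).1
  · refine (hd r hr).2.congr_of_eventuallyEq ?_
    filter_upwards [Ioo_mem_nhds hr.1 hr.2] with t ht
    exact heq t ht

lemma gj_bound {n : ℕ} (τ : Measure (En n)) (hf : IsFiniteMeasure τ) {R : ℝ}
    (h0 : τ (closedBall 0 R)ᶜ = 0) {e : En n} (he : ‖e‖ = 1) (hR : 0 < R) (j : ℕ) {r : ℝ}
    (hr : R + 1 ≤ r) : gj τ e j r ≤ om j 1 * τ.real univ := by
  have h1 : ∀ᵐ y ∂τ, ‖om j (dist (r • e) y)‖ ≤ om j 1 := by
    have h2 : ∀ᵐ y ∂τ, y ∈ closedBall (0 : En n) R := by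
      rw [ae_iff]
      exact h0
    filter_upwards [h2] with y hy
    rw [mem_closedBall, dist_zero_right] at hy
    have h3 : r - R ≤ dist (r • e) y := by
      have h4 : ‖r • e‖ = r := by
        rw [norm_smul, he, mul_one, Real.norm_eq_abs, abs_of_nonneg (by linarith)]
      have h5 := norm_sub_norm_le (r • e) y
      rw [← dist_eq_norm, h4] at h5
      linarith
    rw [Real.norm_eq_abs, abs_of_nonneg (om_nn j dist_nonneg)]
    exact om_le j one_pos (by linarith)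
  have h6 := norm_integral_le_of_norm_le_const h1
  unfold gj
  exact (le_abs_self _).trans h6

lemma sphere_pos {n : ℕ} (τ : Measure (En n)) (S : Set ℝ)
    (hs : τ.support = {x : En n | ‖x‖ ∈ S}) (h0 : τ τ.supportᶜ = 0) {e : En n} (he : ‖e‖ = 1)
    {R' x y : ℝ} (hx0 : 0 ≤ x) (hx : x < R') (hy : R' < y) (hS : R' ∈ S)
    (h : ∀ r, x < r → r < y → r ≠ R' → r ∉ S) : 0 < τ (sphere 0 R') := by
  rw [pos_iff_ne_zero]
  intro hz
  have hR' : 0 < R' := lt_of_le_of_lt hx0 hx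
  have hmem : R' • e ∈ τ.support := by
    rw [hs, mem_ofPred_eq, norm_smul, he, mul_one, Real.norm_eq_abs, abs_of_pos hR']
    exact hS
  rw [Measure.mem_support_iff_forall] at hmem
  have hopen : IsOpen {z : En n | x < ‖z‖ ∧ ‖z‖ < y} :=
    (isOpen_lt continuous_const continuous_norm).inter
      (isOpen_lt continuous_norm continuous_const)
  have hnb : {z : En n | x < ‖z‖ ∧ ‖z‖ < y} ∈ 𝓝 (R' • e) := by
    apply hopen.mem_nhds
    rw [mem_ofPred_eq, norm_smul, he, mul_one, Real.norm_eq_abs, abs_of_pos hR']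
    exact ⟨hx, hy⟩
  have h1 := hmem _ hnb
  have h2 : τ {z : En n | x < ‖z‖ ∧ ‖z‖ < y} = 0 := by
    have h3 : {z : En n | x < ‖z‖ ∧ ‖z‖ < y} ⊆ sphere 0 R' ∪ τ.supportᶜ := by
      intro z hz
      by_cases h4 : ‖z‖ = R'
      · left
        rw [mem_sphere, dist_zero_right]
        exact h4
      · right
        intro h5
        rw [hs] at h5
        exact h _ hz.1 hz.2 h4 h5
    exact measure_mono_null h3 (measure_union_null hz h0)
  rw [h2] at h1
  exact lt_irrefl _ h1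

lemma tendsto_exp_poly (A B C : ℝ) (n : ℕ) :
    Tendsto (fun r : ℝ => C * Real.exp (-(r / 2)) * (A + B * r ^ n)) atTop (𝓝 0) := by
  have h1 : Tendsto (fun r : ℝ => r / 2) atTop atTop :=
    tendsto_id.atTop_div_const (by norm_num)
  have h2 := (Real.tendsto_pow_mul_exp_neg_atTop_nhds_zero 0).comp h1
  have h3 := (Real.tendsto_pow_mul_exp_neg_atTop_nhds_zero n).comp h1
  have h4 := (h2.const_mul (C * A)).add (h3.const_mul (C * B * 2 ^ n))
  rw [mul_zero, mul_zero, add_zero] at h4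
  refine h4.congr fun r => ?_
  simp only [Function.comp_apply, pow_zero, one_mul, div_pow]
  have h5 : (2 : ℝ) ^ n ≠ 0 := by positivity
  field_simp

lemma wlim_aux (hG : GAPO) {n : ℕ} (hn : 2 ≤ n) (τ : Measure (En n)) (hf : IsFiniteMeasure τ)
    (hrot : Rot τ) {e : En n} (he : ‖e‖ = 1) {R : ℝ} (hR : 0 < R)
    (h0 : τ (closedBall 0 R)ᶜ = 0) (k : ℕ) (hnk : n = 2 * k) (K L : ℝ → ℝ) (C : ℝ)
    (hC : ∀ r : ℝ, 1 ≤ r → |K r| ≤ C * Real.exp (-(r / 2)) ∧ |L r| ≤ C * Real.exp (-(r / 2)))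
    (c : ℝ) :
    Tendsto (fun r => K r * (c * (r ^ (n - 1) * deriv (gj τ e k) r)) -
      L r * (c * gj τ e k r - 1)) atTop (𝓝 0) := by
  obtain ⟨G, hGd⟩ : ∃ G : ℝ, G = (om k 1 + om (k + 1) 1) * τ.real univ := ⟨_, rfl⟩
  have hu0 : 0 ≤ τ.real univ := measureReal_nonneg
  have ho : ∀ j, 0 ≤ om j 1 := fun j => om_nn j zero_le_one
  have hG0 : 0 ≤ G := by
    rw [hGd]
    exact mul_nonneg (add_nonneg (ho _) (ho _)) hu0
  have hgk : ∀ r, R + 1 ≤ r → |gj τ e k r| + |gj τ e (k + 1) r| ≤ G := by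
    intro r hr
    have h1 := gj_bound τ hf h0 he hR k hr
    have h2 := gj_bound τ hf h0 he hR (k + 1) hr
    rw [abs_of_nonneg (gj_nn τ e k r), abs_of_nonneg (gj_nn τ e (k + 1) r), hGd, add_mul]
    linarith
  obtain ⟨dd, hdd⟩ : ∃ dd : ℝ → ℝ, dd = fun r => r ^ (n - 1) * deriv (gj τ e k) r := ⟨_, rfl⟩
  have hnull : ∀ r, R < r → τ {y | R < ‖y‖ ∧ ‖y‖ < r + 1} = 0 := by
    intro r _
    refine measure_mono_null ?_ h0
    intro y hy hy2
    rw [mem_closedBall, dist_zero_right] at hy2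
    exact not_lt.2 hy2 hy.1
  have hder : ∀ r, R + 1 ≤ r → HasDerivAt dd (r ^ (n - 1) * (gj τ e k r -
      ((n : ℝ) - 1 - 2 * k) * gj τ e (k + 1) r)) r := by
    intro r hr
    rw [hdd]
    exact (gap_eqs hG hn τ hf hrot he hR.le (by linarith) (hnull r (by linarith)) k
      ⟨by linarith, by linarith⟩).2.2
  have hn1 : (n : ℝ) - 1 - 2 * k = -1 := by
    rw [hnk]
    push_cast
    ring
  have hn' : n - 1 + 1 = n := by omega
  have hddb : ∀ r, R + 1 ≤ r → |dd r| ≤ |dd (R + 1)| + G * r ^ n := by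
    intro r hr
    have h1 := Convex.norm_image_sub_le_of_norm_hasDerivWithin_le (f := dd)
      (f' := fun t => t ^ (n - 1) * (gj τ e k t - ((n : ℝ) - 1 - 2 * k) * gj τ e (k + 1) t))
      (C := G * r ^ (n - 1)) (s := Icc (R + 1) r) (x := R + 1) (y := r)
      (fun t ht => (hder t ht.1).hasDerivWithinAt)
      (fun t ht => by
        have ht0 : 0 < t := by linarith [ht.1]
        rw [hn1, norm_mul, Real.norm_eq_abs, Real.norm_eq_abs, abs_of_nonneg (by positivity),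
          mul_comm]
        apply mul_le_mul _ (pow_le_pow_left₀ ht0.le ht.2 _) (by positivity) hG0
        refine le_trans ?_ (hgk t ht.1)
        have h2 : gj τ e k t - -1 * gj τ e (k + 1) t = gj τ e k t + gj τ e (k + 1) t := by ring
        rw [h2]
        exact abs_add_le _ _)
      (convex_Icc _ _) ⟨le_rfl, hr⟩ ⟨hr, le_rfl⟩
    rw [Real.norm_eq_abs, Real.norm_eq_abs, abs_of_nonneg (by linarith : 0 ≤ r - (R + 1))] at h1
    have hr0 : 0 < r := by linarith
    have h2 : G * r ^ (n - 1) * (r - (R + 1)) ≤ G * r ^ n := by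
      have h3 : G * r ^ n = G * r ^ (n - 1) * r := by
        nth_rewrite 1 [← hn']
        rw [pow_succ, mul_assoc]
      rw [h3]
      apply mul_le_mul_of_nonneg_left (by linarith) (by positivity)
    have h4 : |dd r| ≤ |dd r - dd (R + 1)| + |dd (R + 1)| := by
      have h5 := abs_add_le (dd r - dd (R + 1)) (dd (R + 1))
      rw [sub_add_cancel] at h5
      exact h5
    linarith
  apply squeeze_zero_norm' _ (tendsto_exp_poly (|c| * |dd (R + 1)| + |c| * G + 1) (|c| * G) C n)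
  filter_upwards [eventually_ge_atTop (R + 1)] with r hr
  have hr1 : 1 ≤ r := by linarith
  obtain ⟨hK, hL⟩ := hC r hr1
  have hdr : r ^ (n - 1) * deriv (gj τ e k) r = dd r := by rw [hdd]
  rw [hdr, Real.norm_eq_abs]
  have h1 : |K r * (c * dd r) - L r * (c * gj τ e k r - 1)| ≤
      |K r| * |c * dd r| + |L r| * |c * gj τ e k r - 1| := by
    rw [← abs_mul, ← abs_mul]
    exact abs_sub _ _
  have h2 : |c * dd r| ≤ |c| * (|dd (R + 1)| + G * r ^ n) := by
    rw [abs_mul]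
    exact mul_le_mul_of_nonneg_left (hddb r hr) (abs_nonneg _)
  have h3 : |c * gj τ e k r - 1| ≤ |c| * G + 1 := by
    have h4 : |c * gj τ e k r - 1| ≤ |c * gj τ e k r| + |(1 : ℝ)| := abs_sub _ _
    rw [abs_mul, abs_one] at h4
    have h5 : |gj τ e k r| ≤ G := by
      have := hgk r hr
      have := abs_nonneg (gj τ e (k + 1) r)
      linarith
    have h6 := mul_le_mul_of_nonneg_left h5 (abs_nonneg c)
    linarith
  have hCe : 0 ≤ C * Real.exp (-(r / 2)) := (abs_nonneg _).trans hK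
  calc |K r * (c * dd r) - L r * (c * gj τ e k r - 1)| ≤
        |K r| * |c * dd r| + |L r| * |c * gj τ e k r - 1| := h1
    _ ≤ C * Real.exp (-(r / 2)) * (|c| * (|dd (R + 1)| + G * r ^ n)) +
        C * Real.exp (-(r / 2)) * (|c| * G + 1) :=
        add_le_add (mul_le_mul hK h2 (abs_nonneg _) hCe) (mul_le_mul hL h3 (abs_nonneg _) hCe)
    _ = C * Real.exp (-(r / 2)) * (|c| * |dd (R + 1)| + |c| * G + 1 + |c| * G * r ^ n) := by ring

/-- derivative of the flux `pe` in a gap -/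
lemma pe_deriv (hG : GAPO) (hCh : CHG) {n : ℕ} (hn : 2 ≤ n) (τ : Measure (En n))
    (hf : IsFiniteMeasure τ) (hrot : Rot τ) {e : En n} (he : ‖e‖ = 1) {a b : ℝ} (ha : 0 ≤ a)
    (hab : a < b) (h0 : τ {y | a < ‖y‖ ∧ ‖y‖ < b} = 0) (j : ℕ) (hj : 2 * (j + 1) ≤ n) {r : ℝ}
    (hr : r ∈ Ioo a b) :
    HasDerivAt (pe τ e j) (r ^ (n - 1) * (gj τ e j r -
      ((n : ℝ) - 1 - 2 * j) * gj τ e (j + 1) r)) r := by
  obtain ⟨-, hi1, hi2, -, -, hd⟩ := hCh n j hn hj τ hf hrot e he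
  have hr0 : 0 < r := lt_of_le_of_lt ha hr.1
  obtain ⟨φ, hφ⟩ : ∃ φ : ℝ → ℝ, φ = fun u => u ^ (n - 1) *
    (gj τ e j u - ((n : ℝ) - 1 - 2 * j) * gj τ e (j + 1) u) := ⟨_, rfl⟩
  have hint : IntervalIntegrable φ volume 0 r := by
    have h1 := (hi1 r hr0).sub ((hi2 r hr0).const_mul ((n : ℝ) - 1 - 2 * j))
    rw [hφ]
    refine h1.congr ?_
    intro u _
    beta_reduce
    ring
  have hcont : ContinuousOn φ (Ioo a b) := by
    rw [hφ]
    intro t ht
    have ht0 : 0 < t := lt_of_le_of_lt ha ht.1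
    have h1 := (hd t ht0).continuousAt
    have h2 := (gap_eqs hG hn τ hf hrot he ha hab h0 (j + 1) ht).2.1.continuousAt
    have h3 : ContinuousAt (fun u : ℝ => u ^ (n - 1)) t := by fun_prop
    exact (h3.mul (h1.sub (h2.const_mul _))).continuousWithinAt
  have hmeas : StronglyMeasurableAtFilter φ (𝓝 r) volume :=
    hcont.stronglyMeasurableAtFilter isOpen_Ioo r hr
  have h4 := intervalIntegral.integral_hasDerivAt_right hint hmeas
    (hcont.continuousAt (Ioo_mem_nhds hr.1 hr.2))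
  have h5 : (fun u => ∫ x in (0 : ℝ)..u, φ x) = pe τ e j := by
    funext u
    rw [hφ]
    rfl
  rw [h5, hφ] at h4
  exact h4

theorem estr : RSET → EDGE → CHG → GAPO → KEV → EMK → EINV → BLOW → ECNT → ESTR := by
  intro hRSET hEDGE hCHG hGAPO hKEV hEMK hEINV hBLOW hECNT n k hk hnk τ R ρ hR hρ hrot hKT hsph
    hball hshell
  have hf : IsFiniteMeasure τ := hKT.fin
  have hn2 : 2 ≤ n := by omega
  have hn0 : 0 < n := by omega
  have hc0 : τ (closedBall 0 R)ᶜ = 0 := hKT.compl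
  -- a unit vector
  obtain ⟨e, he⟩ : ∃ e : En n, ‖e‖ = 1 :=
    ⟨EuclideanSpace.single ⟨0, hn0⟩ 1, by simp⟩
  have hnorm : ∀ r : ℝ, 0 ≤ r → ‖r • e‖ = r := fun r hr => by
    rw [norm_smul, he, mul_one, Real.norm_eq_abs, abs_of_nonneg hr]
  obtain ⟨S, hS⟩ : ∃ S : Set ℝ, S = {r : ℝ | 0 ≤ r ∧ r • e ∈ τ.support} := ⟨_, rfl⟩
  obtain ⟨-, hSI, hsupp, -, -⟩ := hRSET n (by omega) τ R hR hf hrot hc0 e he S hS
  have hmemS : ∀ r, 0 ≤ r → (r ∈ S ↔ r • e ∈ τ.support) := fun r hr => by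
    rw [hS]
    exact ⟨fun h => h.2, fun h => ⟨hr, h⟩⟩
  have hnullS : τ τ.supportᶜ = 0 := Measure.measure_compl_support
  -- the shells
  obtain ⟨T, hT, hTs⟩ := hshell
  have hST : ∀ r, 0 ≤ r → (r ∈ S ↔ ∃ p ∈ T, p.1 ≤ r ∧ r ≤ p.2) := by
    intro r hr
    rw [hmemS r hr, hTs]
    simp only [mem_iUnion, mem_ofPred_eq, exists_prop, hnorm r hr]
  have hRS : R ∈ S := by
    rw [hmemS R hR.le]
    apply hsph
    rw [mem_sphere, dist_zero_right, hnorm R hR.le]
  have hρS : ∀ r, 0 ≤ r → r ≤ ρ → r ∈ S := by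
    intro r hr hr2
    rw [hmemS r hr]
    apply hball
    rw [mem_closedBall, dist_zero_right, hnorm r hr]
    exact hr2
  -- the nondegenerate intervals
  obtain ⟨N, hN⟩ : ∃ N : Set (ℝ × ℝ), N = {p ∈ T | max p.1 0 < p.2} := ⟨_, rfl⟩
  have hNfin : N.Finite := by
    rw [hN]
    exact hT.subset (sep_subset _ _)
  have hNne : N.Nonempty := by
    by_contra hne
    rw [not_nonempty_iff_eq_empty] at hne
    have h1 : Ioc 0 ρ ⊆ Prod.snd '' T := by
      intro r hr
      obtain ⟨p, hp, hp1, hp2⟩ := (hST r hr.1.le).1 (hρS r hr.1.le hr.2)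
      have h2 : ¬ max p.1 0 < p.2 := by
        intro h3
        have h4 : p ∈ N := by
          rw [hN]
          exact ⟨hp, h3⟩
        rw [hne] at h4
        exact h4
      rw [not_lt, le_max_iff] at h2
      refine ⟨p, hp, ?_⟩
      rcases h2 with h2 | h2
      · linarith
      · linarith [hr.1]
    exact (Ioc_infinite hρ) ((hT.image _).subset h1)
  obtain ⟨p₀, hp₀, hmax⟩ := hNfin.exists_maximalFor Prod.snd N hNne
  obtain ⟨a, ha⟩ : ∃ a, a = max p₀.1 0 := ⟨_, rfl⟩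
  obtain ⟨b, hb⟩ : ∃ b, b = p₀.2 := ⟨_, rfl⟩
  have hp₀' : p₀ ∈ T ∧ max p₀.1 0 < p₀.2 := by
    rw [hN] at hp₀
    exact hp₀
  have ha0 : 0 ≤ a := by
    rw [ha]
    exact le_max_right _ _
  have hab : a < b := by
    rw [ha, hb]
    exact hp₀'.2
  have hb0 : 0 < b := lt_of_le_of_lt ha0 hab
  have habS : ∀ r, a ≤ r → r ≤ b → r ∈ S := by
    intro r hr1 hr2
    rw [hST r (ha0.trans hr1)]
    refine ⟨p₀, hp₀'.1, ?_, by rw [← hb]; exact hr2⟩
    refine le_trans ?_ hr1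
    rw [ha]
    exact le_max_left _ _
  have hfin : (S ∩ Ioi b).Finite := by
    refine (hT.image Prod.snd).subset ?_
    rintro r ⟨hrS, hrb⟩
    rw [mem_Ioi] at hrb
    have hr0 : 0 ≤ r := (hb0.trans hrb).le
    obtain ⟨p, hp, hp1, hp2⟩ := (hST r hr0).1 hrS
    have h2 : ¬ max p.1 0 < p.2 := by
      intro h3
      have h4 : p ∈ N := by
        rw [hN]
        exact ⟨hp, h3⟩
      have h5 : p₀.2 ≤ p.2 := by
        rw [← hb]
        linarith
      have h6 := hmax h4 h5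
      rw [← hb] at h6
      linarith
    rw [not_lt, le_max_iff] at h2
    refine ⟨p, hp, ?_⟩
    rcases h2 with h2 | h2
    · linarith
    · linarith
  obtain ⟨F, hF⟩ : ∃ F : Finset ℝ, ∀ r, r ∈ F ↔ r ∈ S ∧ b < r :=
    ⟨hfin.toFinset, fun r => by rw [Finite.mem_toFinset, mem_inter_iff, mem_Ioi]⟩
  -- the potential
  have hpot : ∀ r, potential τ (r • e) = gj τ e 0 r := by
    intro r
    unfold potential gj
    simp only [om_zero]
  have hV0 : ∀ r, VV τ e 0 r = potential τ (r • e) - 1 := by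
    intro r
    rw [hpot]
    unfold VV cc
    rw [Finset.prod_range_zero, one_mul]
  have hVS : ∀ r ∈ S, VV τ e 0 r = 0 := by
    intro r hr
    have hr0 : 0 ≤ r := (hSI hr).1
    rw [hV0, hKT.eq _ ((hmemS r hr0).1 hr), sub_self]
  have hVge : ∀ r, 0 ≤ r → r ≤ R → 0 ≤ VV τ e 0 r := by
    intro r hr hr2
    have h1 : r • e ∈ closedBall (0 : En n) R := by
      rw [mem_closedBall, dist_zero_right, hnorm r hr]
      exact hr2
    rw [hV0]
    linarith [hKT.ge _ h1]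
  -- b < R
  have hτ0 : τ ≠ 0 := by
    intro h0
    have h1 := (hmemS R hR.le).1 hRS
    rw [h0, Measure.mem_support_iff_forall] at h1
    have h2 := h1 univ univ_mem
    simp at h2
  obtain ⟨δ, hδ, hδR, hedge⟩ := hEDGE n hn2 τ R hR hf hrot hτ0 hc0 e he
    (hKT.eq _ ((hmemS R hR.le).1 hRS))
  have hbR : b < R := by
    have hbR' : b ≤ R := (hSI (habS b hab.le le_rfl)).2
    rcases hbR'.eq_or_lt with h | h
    · exfalso
      obtain ⟨t, ht⟩ : ∃ t, t = (max a (R - δ) + R) / 2 := ⟨_, rfl⟩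
      have h1 : max a (R - δ) < R := max_lt (by rw [← h]; exact hab) (by linarith)
      have h2 : max a (R - δ) < t := by
        rw [ht]
        linarith
      have h3 : t < R := by
        rw [ht]
        linarith
      have h4 : a ≤ t := ((le_max_left _ _).trans_lt h2).le
      have h5 := hVS t (habS t h4 (by rw [h]; exact h3.le))
      rw [hV0] at h5
      have h6 := hedge t ((le_max_right _ _).trans_lt h2) h3
      linarith
    · exact h
  have hRF : R ∈ F := (hF R).2 ⟨hRS, hbR⟩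
  have hFne : F.Nonempty := ⟨R, hRF⟩
  -- intervals without points of `S`
  have hiso : ∀ r, b < r → ∃ ε > 0, b < r - ε ∧ ∀ t, |t - r| < ε → t ≠ r → t ∉ S := by
    intro r hr
    have h1 : IsOpen ((↑(F.erase r) : Set ℝ)ᶜ) := (F.erase r).finite_toSet.isClosed.isOpen_compl
    have h2 : r ∈ ((↑(F.erase r) : Set ℝ)ᶜ) := by
      rw [mem_compl_iff, Finset.mem_coe]
      exact Finset.notMem_erase r F
    obtain ⟨ε, hε, hsub⟩ := Metric.isOpen_iff.1 h1 r h2
    refine ⟨min ε ((r - b) / 2), lt_min hε (by linarith), ?_, ?_⟩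
    · have := min_le_right ε ((r - b) / 2)
      linarith
    · intro t ht htr htS
      have h3 : |t - r| < ε := lt_of_lt_of_le ht (min_le_left _ _)
      have h4 : |t - r| < (r - b) / 2 := lt_of_lt_of_le ht (min_le_right _ _)
      have h5 := hsub (show t ∈ ball r ε by
        rw [mem_ball, Real.dist_eq]
        exact h3)
      rw [mem_compl_iff, Finset.mem_coe, Finset.mem_erase] at h5
      apply h5
      refine ⟨htr, (hF t).2 ⟨htS, ?_⟩⟩
      have := (abs_lt.1 h4).1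
      linarith
  have hgap : ∀ r, b < r → r ∉ F → ∃ a' b', 0 ≤ a' ∧ r ∈ Ioo a' b' ∧ a' < b' ∧
      τ {y | a' < ‖y‖ ∧ ‖y‖ < b'} = 0 := by
    intro r hr hrF
    obtain ⟨ε, hε, hbε, hS'⟩ := hiso r hr
    refine ⟨r - ε, r + ε, by linarith, ⟨by linarith, by linarith⟩, by linarith, ?_⟩
    apply shell_null τ S hsupp hnullS
    intro t ht1 ht2
    by_cases htr : t = r
    · rw [htr]
      intro h
      exact hrF ((hF r).2 ⟨h, hr⟩)
    · exact hS' t (abs_lt.2 ⟨by linarith, by linarith⟩) htr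
  -- the first radius
  obtain ⟨c, hc⟩ : ∃ c, c = F.min' hFne := ⟨_, rfl⟩
  have hcF : c ∈ F := by
    rw [hc]
    exact F.min'_mem hFne
  have hbc : b < c := ((hF c).1 hcF).2
  have hnullbc : τ {y | b < ‖y‖ ∧ ‖y‖ < c} = 0 := by
    apply shell_null τ S hsupp hnullS
    intro r hr1 hr2 hrS
    have h1 : c ≤ r := by
      rw [hc]
      exact F.min'_le r ((hF r).2 ⟨hrS, hr1⟩)
    linarith
  obtain ⟨hvb, hstart⟩ := hEINV n k (by omega) hnk τ hf hrot e he a b c ha0 hab hbc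
    (fun r hr1 hr2 => hVS r (habS r hr1.le hr2.le)) hnullbc
  -- the decaying solution
  obtain ⟨K, L, hKL, C, hC⟩ := hKEV k (by omega)
  have hECh := hEMK n k hk hnk τ R hf hrot hc0 e he K L hKL ⟨C, hC⟩
  have hcp : 0 < cc n k := by
    rw [hnk]
    exact cc_pos k
  have hn1 : (n : ℝ) - 1 - 2 * k = -1 := by
    rw [hnk]
    push_cast
    ring
  have hnn : n - 1 = 2 * k - 1 := by omega
  have hkk : k - 1 + 1 = k := by omega
  refine hECNT k K L (VV τ e) (PE τ e) hECh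
    (fun r => cc n k * (r ^ (n - 1) * deriv (gj τ e k) r))
    (fun r => cc n k * (r ^ (n - 1) * (gj τ e k r - ((n : ℝ) - 1 - 2 * k) *
      gj τ e (k + 1) r))) b F ?_
  refine ⟨hb0, hFne, ?_, ?_, hvb, ?_, ?_, ?_, ?_, ?_, ?_, hstart⟩
  · intro r hr
    have h1 := (hF r).1 hr
    exact ⟨h1.2, hVS r h1.1⟩
  · intro R' hR' r hr hrR'
    exact hVge r (by linarith) (hrR'.trans (hSI ((hF R').1 hR').1).2)
  · -- ptop
    intro r hr hrF
    obtain ⟨a', b', ha', hrab, hab', h0'⟩ := hgap r hr hrF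
    have h1 := pe_deriv hGAPO hCHG hn2 τ hf hrot he ha' hab' h0' (k - 1) (by omega) hrab
    have h2 := h1.const_mul (cc n (k - 1))
    have h3 : (fun r => cc n (k - 1) * pe τ e (k - 1) r) = PE τ e (k - 1) := rfl
    rw [h3] at h2
    refine h2.congr_deriv ?_
    rw [hkk, ← hnn]
    unfold VV
    have h4 : cc n k = cc n (k - 1) * ((n : ℝ) - 1 - 2 * ((k - 1 : ℕ) : ℝ)) := by
      nth_rewrite 1 [← hkk]
      exact cc_succ n (k - 1)
    rw [h4]
    ring
  · -- vk
    intro r hr hrF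
    obtain ⟨a', b', ha', hrab, hab', h0'⟩ := hgap r hr hrF
    have h1 := (gap_eqs hGAPO hn2 τ hf hrot he ha' hab' h0' k hrab).2.1
    have h2 := (h1.const_mul (cc n k)).sub_const 1
    refine h2.congr_deriv ?_
    rw [hnn]
    ring
  · -- dk
    intro r hr hrF
    obtain ⟨a', b', ha', hrab, hab', h0'⟩ := hgap r hr hrF
    exact (gap_eqs hGAPO hn2 τ hf hrot he ha' hab' h0' k hrab).2.2.const_mul (cc n k)
  · -- dpos
    intro r hr hrF
    have hr0 : 0 < r := hb0.trans hr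
    have h1 := gj_nn τ e (k + 1) r
    have h2 : 0 < r ^ (n - 1) := pow_pos hr0 _
    beta_reduce
    rw [hn1, ← hnn]
    unfold VV
    have h3 : 0 ≤ cc n k * r ^ (n - 1) * gj τ e (k + 1) r := by positivity
    nlinarith
  · -- wlim
    exact wlim_aux hGAPO hn2 τ hf hrot he hR hc0 k hnk K L C hC (cc n k)
  · -- near
    intro R' hR'
    have hR'S := (hF R').1 hR'
    obtain ⟨ε, hε, hbε, hS'⟩ := hiso R' hR'S.2
    have hR'0 : 0 < R' := hb0.trans hR'S.2
    have hpos := sphere_pos τ S hsupp hnullS he (x := R' - ε) (y := R' + ε) (by linarith)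
      (by linarith) (by linarith) hR'S.1 (fun r h1 h2 h3 =>
        hS' r (abs_lt.2 ⟨by linarith, by linarith⟩) h3)
    obtain ⟨δ', hδ', hblow⟩ := hBLOW n k (by omega) hnk τ hf hrot e he R' hR'0 hpos (2 / cc n k)
    refine ⟨min δ' ε, lt_min hδ' hε, ?_⟩
    intro r hr hrR
    have hr1 : |r - R'| < δ' := lt_of_lt_of_le hr (min_le_left _ _)
    have hr2 : |r - R'| < ε := lt_of_lt_of_le hr (min_le_right _ _)
    have hr3 := abs_lt.1 hr2
    have hrb : b < r := by linarith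
    have hrF : r ∉ F := fun h => hS' r hr2 hrR ((hF r).1 h).1
    obtain ⟨a', b', ha', hrab, hab', h0'⟩ := hgap r hrb hrF
    have hint := (gap_eqs hGAPO hn2 τ hf hrot he ha' hab' h0' k hrab).1
    have h1 := hblow r hr1 hrR hint
    unfold VV
    rw [div_le_iff₀ hcp] at h1
    linarith

end Pool.Agent.Helper60.OB
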